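import Pool.Agent.Q16.SQ.Stm3

set_option autoImplicit false

/-!
Project SQ, job DIAG: a parallelogram is the union of two triangles.
-/

open Pool.Agent.Helper549.Tri

namespace Q214.SQ

open Q16.SQ

theorem mem_TriOf (A B C p : E2) : p ∈ TriOf A B C ↔
    ∃ x y z : ℝ, 0 ≤ x ∧ 0 ≤ y ∧ 0 ≤ z ∧ x + y + z = 1 ∧ p = x • A + y • B + z • C := by
  constructor
  · intro hp
    have hsub : convexHull ℝ (Set.range ![A, B, C]) ⊆
        {p : E2 | ∃ x y z : ℝ, 0 ≤ x ∧ 0 ≤ y ∧ 0 ≤ z ∧ x + y + z = 1 ∧
          p = x • A + y • B + z • C} := by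
      refine convexHull_min ?_ ?_
      · rintro _ ⟨i, rfl⟩
        fin_cases i
        · exact ⟨1, 0, 0, by norm_num, le_refl 0, le_refl 0, by norm_num, by
            show A = _
            module⟩
        · exact ⟨0, 1, 0, le_refl 0, by norm_num, le_refl 0, by norm_num, by
            show B = _
            module⟩
        · exact ⟨0, 0, 1, le_refl 0, le_refl 0, by norm_num, by norm_num, by
            show C = _
            module⟩
      · rintro p ⟨x, y, z, hx, hy, hz, hs, rfl⟩ q ⟨x', y', z', hx', hy', hz', hs', rfl⟩ a b ha hb hab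
        refine ⟨a * x + b * x', a * y + b * y', a * z + b * z', by positivity, by positivity,
          by positivity, ?_, by module⟩
        have : a * x + b * x' + (a * y + b * y') + (a * z + b * z') =
          a * (x + y + z) + b * (x' + y' + z') := by ring
        rw [this, hs, hs', mul_one, mul_one, hab]
    exact hsub hp
  · rintro ⟨x, y, z, hx, hy, hz, hs, rfl⟩
    have hc : Convex ℝ (TriOf A B C) := convex_convexHull ℝ _
    have hA : A ∈ TriOf A B C := subset_convexHull ℝ _ ⟨0, rfl⟩
    have hB : B ∈ TriOf A B C := subset_convexHull ℝ _ ⟨1, rfl⟩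
    have hC : C ∈ TriOf A B C := subset_convexHull ℝ _ ⟨2, rfl⟩
    have h := hc.sum_mem (t := Finset.univ) (w := ![x, y, z]) (z := ![A, B, C]) ?_ ?_ ?_
    · rw [Fin.sum_univ_three] at h
      exact h
    · intro i _
      fin_cases i
      · exact hx
      · exact hy
      · exact hz
    · rw [Fin.sum_univ_three]
      exact hs
    · intro i _
      fin_cases i
      · exact hA
      · exact hB
      · exact hC

theorem t_DIAG : S_DIAG := by
  intro O u v _
  ext p
  rw [Set.mem_union, mem_TriOf, mem_TriOf]
  constructor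
  · rintro ⟨s, t, hs0, hs1, ht0, ht1, rfl⟩
    rcases le_total t s with h | h
    · exact Or.inl ⟨1 - s, s - t, t, by linarith, by linarith, ht0, by ring, by module⟩
    · exact Or.inr ⟨1 - t, t - s, s, by linarith, by linarith, hs0, by ring, by module⟩
  · rintro (⟨x, y, z, hx, hy, hz, hs, rfl⟩ | ⟨x, y, z, hx, hy, hz, hs, rfl⟩)
    · refine ⟨y + z, z, by linarith, by linarith, hz, by linarith, ?_⟩
      have hx' : x = 1 - y - z := by linarith
      rw [hx']
      module
    · refine ⟨z, y + z, hz, by linarith, by linarith, by linarith, ?_⟩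
      have hx' : x = 1 - y - z := by linarith
      rw [hx']
      module

end Q214.SQ
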